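import Pool.Agent.G02.Stmts

/-!
# Squad G02, row VC1: recipe C, the curve `V`
-/

set_option autoImplicit false

namespace Pool.Agent.G02.H83

open Polynomial Pool.Agent.NJ

theorem m8a : ∀ N M e : ZMod 8, N ^ 2 = 7 * M ^ 4 + 5 * M ^ 2 * e ^ 2 + 6 * e ^ 4 →
    4 * M = 0 ∧ 4 * e = 0 := by
  decide +kernel

theorem m8b : ∀ N M e : ZMod 8, N ^ 2 = 6 * M ^ 4 + 5 * M ^ 2 * e ^ 2 + 3 * e ^ 4 →
    4 * e = 0 := by
  decide +kernel

theorem two_dvd {x : ℤ} (h : 4 * (x : ZMod 8) = 0) : (2 : ℤ) ∣ x := by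
  have h1 : ((4 * x : ℤ) : ZMod 8) = 0 := by push_cast; exact h
  rw [ZMod.intCast_zmod_eq_zero_iff_dvd] at h1
  push_cast at h1
  omega

theorem cst {n m : ℕ} (h : n % 8 = m) : (n : ZMod 8) = (m : ZMod 8) := by
  rw [← h]
  exact (ZMod.natCast_mod n 8).symm

theorem ls2 {p : ℕ} [Fact p.Prime] (h : p % 8 = 3) : legendreSym p 2 = -1 := by
  have hp : p ≠ 2 := by
    rintro rfl
    omega
  rw [legendreSym.at_two hp, ZMod.χ₈_nat_eq_if_mod_eight]
  rw [if_neg (by omega), if_neg (by omega)]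

theorem vc1 (hRLC : RlcStmt) (hLA : LaStmt) (hREA : ReaStmt) (hSQF : NJ.SQFStmt) : Vc1Stmt := by
  intro p q r hR d M e N B hQ hpd
  haveI : Fact p.Prime := ⟨hR.pp⟩
  haveI : Fact q.Prime := ⟨hR.pq⟩
  haveI : Fact r.Prime := ⟨hR.pr⟩
  obtain ⟨hr8, s, S⟩ := hRLC p q r hR
  have hp0 : (0 : ℤ) < p := by exact_mod_cast hR.pp.pos
  have hq0 : (0 : ℤ) < q := by exact_mod_cast hR.pq.pos
  have hr0 : (0 : ℤ) < r := by exact_mod_cast hR.pr.pos
  have hd0 : d ≠ 0 := hQ.sqf.ne_zero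
  have hb : (0 : ℤ) < 2 * p * q ^ 3 := by positivity
  have hdpos : 0 < d := by
    rcases lt_or_gt_of_ne hd0 with h | h
    · exfalso
      have h1 := (hREA _ _ d M e N B hQ h hb).2
      have h2 : ((p : ℤ) * q) ^ 2 - 4 * (2 * p * q ^ 3) = -(p * q ^ 2 * r) := by
        rw [hR.hr]
        ring
      rw [h2] at h1
      have h3 : (0 : ℤ) < p * q ^ 2 * r := by positivity
      omega
    · exact h
  have hsup : ∀ l : ℕ, l.Prime → (l : ℤ) ∣ d → l = 2 ∨ l = q := by
    intro l hl hld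
    have h1 : (l : ℤ) ∣ 2 * p * q ^ 3 := hld.trans ⟨B, hQ.hb⟩
    have hlp : Prime (l : ℤ) := Nat.prime_iff_prime_int.1 hl
    rcases hlp.dvd_or_dvd h1 with h2 | h2
    · rcases hlp.dvd_or_dvd h2 with h3 | h3
      · left
        have h4 : l ∣ 2 := by exact_mod_cast h3
        exact (Nat.prime_dvd_prime_iff_eq hl Nat.prime_two).1 h4
      · exfalso
        have h4 : l ∣ p := by exact_mod_cast h3
        have h5 := (Nat.prime_dvd_prime_iff_eq hl hR.pp).1 h4
        rw [h5] at hld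
        exact hpd hld
    · right
      have h3 := hlp.dvd_of_dvd_pow h2
      have h4 : l ∣ q := by exact_mod_cast h3
      exact (Nat.prime_dvd_prime_iff_eq hl hR.pq).1 h4
  have hp2 : p ≠ 2 := S.p2
  have hlp : Prime (p : ℤ) := Nat.prime_iff_prime_int.1 hR.pp
  have hpq : ¬ (p : ℤ) ∣ q := by
    intro h
    have h4 : p ∣ q := by exact_mod_cast h
    exact S.npq ((Nat.prime_dvd_prime_iff_eq hR.pp hR.pq).1 h4)
  have hp2' : ¬ (p : ℤ) ∣ 2 := by
    intro h
    have h4 : p ∣ 2 := by exact_mod_cast h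
    exact hp2 ((Nat.prime_dvd_prime_iff_eq hR.pp Nat.prime_two).1 h4)
  have hleg : legendreSym p d = 1 := by
    refine hLA _ _ d M e N B hQ p hp2 hpd (Or.inl ⟨⟨q, rfl⟩, ⟨2 * q ^ 3, by ring⟩, ?_⟩)
    rintro ⟨c, hc⟩
    have h1 : (2 : ℤ) * q ^ 3 = p * c := by
      have h2 : (p : ℤ) * (2 * q ^ 3) = p * (p * c) := by linear_combination hc
      exact mul_left_cancel₀ hp0.ne' h2
    have h3 : (p : ℤ) ∣ 2 * q ^ 3 := ⟨c, h1⟩
    rcases hlp.dvd_or_dvd h3 with h4 | h4
    · exact hp2' h4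
    · exact hpq (hlp.dvd_of_dvd_pow h4)
  have cp : (p : ZMod 8) = 3 := cst hR.mp
  have cq : (q : ZMod 8) = 7 := cst hR.mq
  obtain ⟨ε, hε, hcase⟩ := (hSQF d q r hQ.sqf hR.pq hR.pr S.q2 S.r2 S.nqr).1 hsup
  have hε1 : ε = 1 := by
    rcases hε with h | h
    · exact h
    · exfalso
      rw [h] at hcase
      rcases hcase with h1 | h1 | h1 | h1 <;> rw [h1] at hdpos <;> nlinarith
  rw [hε1, one_mul, one_mul, one_mul] at hcase
  rcases hcase with h1 | h1 | h1 | h1
  · exact h1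
  · exfalso
    rw [h1, ls2 hR.mp] at hleg
    exact absurd hleg (by decide)
  · exfalso
    have hB : B = 2 * p * q ^ 2 := by
      have h2 := hQ.hb
      rw [h1] at h2
      have h3 : (q : ℤ) * B = q * (2 * p * q ^ 2) := by linear_combination -h2
      exact mul_left_cancel₀ hq0.ne' h3
    have h2 := hQ.eq
    rw [h1, hB] at h2
    have h3 := congrArg (fun x : ℤ => (x : ZMod 8)) h2
    push_cast at h3
    rw [cp, cq] at h3
    have h4 := m8a N M e (by
      rw [h3]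
      have e1 : (3 : ZMod 8) * 7 = 5 := by decide
      have e2 : (2 : ZMod 8) * 3 * 7 ^ 2 = 6 := by decide
      rw [e1, e2])
    have h5 := two_dvd h4.1
    have h6 := two_dvd h4.2
    have h7 := hQ.cop
    have h8 := h7.isUnit_of_dvd' (h5.mul_left d) h6
    rw [Int.isUnit_iff] at h8
    omega
  · exfalso
    have hB : B = p * q ^ 2 := by
      have h2 := hQ.hb
      rw [h1] at h2
      have h3 : (2 * q : ℤ) * B = 2 * q * (p * q ^ 2) := by linear_combination -h2
      exact mul_left_cancel₀ (by positivity) h3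
    have h2 := hQ.eq
    rw [h1, hB] at h2
    have h3 := congrArg (fun x : ℤ => (x : ZMod 8)) h2
    push_cast at h3
    rw [cp, cq] at h3
    have h4 := m8b N M e (by
      rw [h3]
      have e0 : (2 : ZMod 8) * 7 = 6 := by decide
      have e1 : (3 : ZMod 8) * 7 = 5 := by decide
      have e2 : (3 : ZMod 8) * 7 ^ 2 = 3 := by decide
      rw [e0, e1, e2])
    have h6 := two_dvd h4
    have h7 := hQ.cop
    have h5 : (2 : ℤ) ∣ d * M := by
      rw [h1]
      exact ⟨q * M, by ring⟩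
    have h8 := h7.isUnit_of_dvd' h5 h6
    rw [Int.isUnit_iff] at h8
    omega

end Pool.Agent.G02.H83
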